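import Mathlib
import Pool.Agent.H14.PackDefs
import Pool.Agent.H14.PackProof

namespace Pool.Agent.Results.MP_130313_co.Counter

open Pool.Agent.H14.PackDefs

/-- There is a non-bipartite graph `F` with `hcf(F) = 1` (so `χ*(F) = χ_cr(F)`) and arbitrarily
large `n` divisible by `|F|` with an `n`-vertex graph of minimum degree at least
`(1 - 1/χ_cr(F)) n + |F|` that has no perfect `F`-packing. -/
theorem result :
    ∃ (h : ℕ) (F : SimpleGraph (Fin h)), ¬ F.IsBipartite ∧ HcfOne F ∧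
      ∀ n₀ : ℕ, ∃ n : ℕ, n₀ ≤ n ∧ h ∣ n ∧ ∃ G : SimpleGraph (Fin n),
        (∀ v, (1 - 1 / chiCr F) * (n : ℝ) + (h : ℝ) ≤ ((G.neighborSet v).ncard : ℝ)) ∧
        ¬ HasPerfectPacking F G := by
  refine ⟨18, Pool.Agent.H14.PackProof.F, ?_, Pool.Agent.H14.PackProof.hcf_F,
    Pool.Agent.H14.PackProof.main⟩
  intro hb
  have h1 := SimpleGraph.Colorable.chromaticNumber_le hb
  rw [Pool.Agent.H14.PackProof.F_chrom] at h1
  exact absurd h1 (by decide)

end Pool.Agent.Results.MP_130313_co.Counter
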